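import Pool.Agent.helper93.PX.Spec

/-!
# MP_2b41e9_nt: row px:CF
-/

set_option autoImplicit false

namespace Pool.Agent.PX

open Polynomial

theorem CF_bound (s : Finset ℂ) : ∃ M : ℝ, 0 ≤ M ∧ ∀ z ∈ s, ∀ i : ℕ,
    ‖(Lagrange.basis s (id : ℂ → ℂ) z).coeff i‖ ≤ M := by
  refine ⟨∑ z ∈ s, ∑ i ∈ (Lagrange.basis s (id : ℂ → ℂ) z).support,
    ‖(Lagrange.basis s (id : ℂ → ℂ) z).coeff i‖, by positivity, fun z hz i => ?_⟩
  by_cases hi : i ∈ (Lagrange.basis s (id : ℂ → ℂ) z).support
  · refine le_trans ?_ (Finset.single_le_sum (f := fun z =>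
      ∑ i ∈ (Lagrange.basis s (id : ℂ → ℂ) z).support,
        ‖(Lagrange.basis s (id : ℂ → ℂ) z).coeff i‖) (fun z _ => by positivity) hz)
    exact Finset.single_le_sum (f := fun i => ‖(Lagrange.basis s (id : ℂ → ℂ) z).coeff i‖)
      (fun i _ => norm_nonneg _) hi
  · rw [notMem_support_iff.1 hi, norm_zero]
    positivity

theorem CF_dom {β r a y : ℝ} (hβ : 1 < β) (hr : 0 ≤ r) (hrβ : r < β) (hy : 0 < y) :
    ∀ᶠ k : ℕ in Filter.atTop, r ^ k * a ≤ β ^ k * y := by
  have hβ0 : 0 < β := by linarith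
  have h1 : Filter.Tendsto (fun k : ℕ => (r / β) ^ k * a) Filter.atTop (nhds (0 * a)) :=
    (tendsto_pow_atTop_nhds_zero_of_lt_one (div_nonneg hr hβ0.le) ((div_lt_one hβ0).2 hrβ)).mul_const a
  rw [zero_mul] at h1
  filter_upwards [h1.eventually_lt_const hy] with k hk
  have h2 : (0 : ℝ) < β ^ k := pow_pos hβ0 k
  have h3 : r ^ k = (r / β) ^ k * β ^ k := by
    rw [div_pow]
    field_simp
  rw [h3]
  nlinarith

theorem CF : CF_stmt := by
  intro β hP
  obtain ⟨hint, hβ1, hconj⟩ := hP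
  have hmon : (minpoly ℤ β).Monic := minpoly.monic hint
  have hfQ : minpoly ℚ β = (minpoly ℤ β).map (algebraMap ℤ ℚ) :=
    minpoly.isIntegrallyClosed_eq_field_fractions' ℚ hint
  have hirr : Irreducible (minpoly ℚ β) := minpoly.irreducible hint.tower_top
  have hsep : (minpoly ℚ β).Separable := hirr.separable
  set s : Finset ℂ := ((minpoly ℚ β).aroots ℂ).toFinset with hs
  have hcard : s.card = (minpoly ℤ β).natDegree := by
    have h1 : (minpoly ℤ β).natDegree = (minpoly ℚ β).natDegree := by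
      rw [hfQ, hmon.natDegree_map]
    rw [h1, hs, Multiset.toFinset_card_of_nodup (nodup_roots hsep.map),
      ← (IsAlgClosed.splits ((minpoly ℚ β).map (algebraMap ℚ ℂ))).natDegree_eq_card_roots,
      natDegree_map]
  have haev : ∀ z : ℂ, aeval z (minpoly ℚ β) = aeval z (minpoly ℤ β) := by
    intro z
    rw [hfQ, aeval_map_algebraMap]
  have hroot : ∀ z ∈ s, aeval z (minpoly ℤ β) = 0 := by
    intro z hz
    rw [hs, Multiset.mem_toFinset, mem_aroots] at hz
    rw [← haev]
    exact hz.2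
  obtain ⟨M, hM0, hM⟩ := CF_bound s
  refine ⟨s.card * M + 1, by positivity, fun P hP => ?_⟩
  -- eventually all roots are dominated
  have hev : ∀ᶠ k : ℕ in Filter.atTop, ∀ z ∈ s, ‖z ^ k * aeval z P‖ ≤ β ^ k * aeval β P := by
    rw [Filter.eventually_all_finset]
    intro z hz
    by_cases hzβ : z = (β : ℂ)
    · refine Filter.Eventually.of_forall fun k => ?_
      have e1 : aeval z P = ((aeval β P : ℝ) : ℂ) := by
        rw [hzβ]
        have := Polynomial.aeval_algebraMap_apply ℂ β P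
        exact this
      rw [e1, hzβ, norm_mul, norm_pow, Complex.norm_real, Complex.norm_real,
        Real.norm_of_nonneg (by linarith : (0 : ℝ) ≤ β), Real.norm_of_nonneg hP.le]
    · have h1 := hconj z (hroot z hz) hzβ
      filter_upwards [CF_dom (a := ‖aeval z P‖) hβ1 (norm_nonneg z) h1 hP] with k hk
      rw [norm_mul, norm_pow]
      exact hk
  obtain ⟨k₀, hk₀⟩ := Filter.eventually_atTop.1 hev
  refine ⟨k₀, fun k hk i => ?_⟩
  set Q : ℤ[X] := (X ^ k * P) %ₘ minpoly ℤ β with hQ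
  set QC : ℂ[X] := Q.map (Int.castRingHom ℂ) with hQC
  have hval : ∀ z ∈ s, QC.eval (id z) = z ^ k * aeval z P := by
    intro z hz
    have h1 : QC.eval (id z) = aeval z Q := by
      rw [hQC, eval_map, aeval_def]
      rfl
    have h2 : aeval z Q = aeval z (X ^ k * P) := by
      rw [hQ]
      exact aeval_modByMonic_eq_self_of_root (hroot z hz)
    rw [h1, h2, map_mul, map_pow, aeval_X]
  have hdeg : QC.degree < s.card := by
    rw [hcard]
    have h1 : Q.degree < (minpoly ℤ β).degree := degree_modByMonic_lt _ hmon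
    rw [degree_eq_natDegree hmon.ne_zero] at h1
    exact lt_of_le_of_lt degree_map_le h1
  have hint' := Lagrange.eq_interpolate_of_eval_eq (r := fun z => z ^ k * aeval z P)
    (Function.injective_id.injOn (s := (s : Set ℂ))) hdeg hval
  have hc : QC.coeff i = ∑ z ∈ s, (z ^ k * aeval z P) * (Lagrange.basis s (id : ℂ → ℂ) z).coeff i := by
    rw [hint', Lagrange.interpolate_apply, finsetSum_coeff]
    refine Finset.sum_congr rfl fun z _ => ?_
    rw [coeff_C_mul]
  have hc2 : ‖QC.coeff i‖ ≤ ∑ z ∈ s, (β ^ k * aeval β P) * M := by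
    rw [hc]
    refine (norm_sum_le _ _).trans (Finset.sum_le_sum fun z hz => ?_)
    rw [norm_mul]
    exact mul_le_mul (hk₀ k hk z hz) (hM z hz i) (norm_nonneg _)
      ((norm_nonneg _).trans (hk₀ k hk z hz))
  have hc3 : ‖QC.coeff i‖ = |((Q.coeff i : ℤ) : ℝ)| := by
    rw [hQC, coeff_map, eq_intCast, Complex.norm_intCast]
  rw [Finset.sum_const, nsmul_eq_mul, hc3] at hc2
  have hpos : 0 < β ^ k * aeval β P := mul_pos (pow_pos (by linarith) k) hP
  nlinarith

end Pool.Agent.PX
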